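import Mathlib

set_option linter.unusedVariables false
set_option linter.unusedSimpArgs false

namespace Pool.Agent.Results.MP_0d4ca0_al.UnivT

def IsLoop {Q : Type} (m : Q → Q → Q) (e : Q) : Prop :=
  (∀ x, m e x = x ∧ m x e = x) ∧ (∀ a, Function.Bijective (m a)) ∧
    ∀ a, Function.Bijective (fun y => m y a)

def PropT {Q : Type} (m : Q → Q → Q) : Prop :=
  ∀ x, ∃ φ : Q ≃ Q, (∀ y, m x (φ y) = m y x) ∧ ∀ y z, φ (m y z) = m (φ y) (φ z)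

def AAIP {Q : Type} (m : Q → Q → Q) (e : Q) : Prop :=
  ∃ inv : Q → Q, (∀ x, m x (inv x) = e ∧ m (inv x) x = e) ∧
    ∀ x y, inv (m x y) = m (inv y) (inv x)

@[ext] structure W where
  a : ZMod 2
  b : ZMod 2
  c : ZMod 2
  d : ZMod 2
  e : ZMod 2
  f : ZMod 2
  g : ZMod 2
  deriving DecidableEq

instance : Finite W :=
  Finite.of_injective (fun x : W => (x.a, x.b, x.c, x.d, x.e, x.f, x.g)) (by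
    intro x y h
    simp only [Prod.mk.injEq] at h
    obtain ⟨h1, h2, h3, h4, h5, h6, h7⟩ := h
    exact W.ext h1 h2 h3 h4 h5 h6 h7)

def F (x y : W) : ZMod 2 :=
  x.a * (x.a * x.b * y.b + y.a * x.b * (x.b + y.b) + y.a * (x.c + y.c) + y.f) +
    (x.a * y.b + y.a * x.b) * (x.d + y.d) + x.b * (y.b * (x.e + y.e) + y.g)

def mulW (x y : W) : W :=
  ⟨x.a + y.a, x.b + y.b, x.c + y.c + x.b * y.b, x.d + y.d + x.a * y.b, x.e + y.e + x.a * y.a,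
    x.f + y.f + (x.a + y.a) * x.b * y.b, x.g + y.g + x.a * y.a * (x.b + y.b)⟩

def ldW (x z : W) : W :=
  ⟨z.a - x.a, z.b - x.b, z.c - x.c - x.b * (z.b - x.b), z.d - x.d - x.a * (z.b - x.b),
    z.e - x.e - x.a * (z.a - x.a), z.f - x.f - z.a * x.b * (z.b - x.b),
    z.g - x.g - x.a * (z.a - x.a) * z.b⟩

def rdW (z y : W) : W :=
  ⟨z.a - y.a, z.b - y.b, z.c - y.c - (z.b - y.b) * y.b, z.d - y.d - (z.a - y.a) * y.b,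
    z.e - y.e - (z.a - y.a) * y.a, z.f - y.f - z.a * (z.b - y.b) * y.b,
    z.g - y.g - (z.a - y.a) * y.a * z.b⟩

theorem mul_ldW (x z : W) : mulW x (ldW x z) = z := by
  ext <;> simp only [mulW, ldW] <;> ring
theorem ld_mulW (x y : W) : ldW x (mulW x y) = y := by
  ext <;> simp only [mulW, ldW] <;> ring
theorem mul_rdW (z y : W) : mulW (rdW z y) y = z := by
  ext <;> simp only [mulW, rdW] <;> ring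
theorem rd_mulW (x y : W) : rdW (mulW x y) y = x := by
  ext <;> simp only [mulW, rdW] <;> ring

abbrev V := W × ZMod 2

def mul (x y : V) : V := (mulW x.1 y.1, x.2 + y.2 + F x.1 y.1)
def ld (x z : V) : V := (ldW x.1 z.1, z.2 - x.2 - F x.1 (ldW x.1 z.1))
def rd (z y : V) : V := (rdW z.1 y.1, z.2 - y.2 - F (rdW z.1 y.1) y.1)

theorem mul_ld (x z : V) : mul x (ld x z) = z := by
  refine Prod.ext ?_ ?_ <;> simp only [mul, ld, mul_ldW]; ring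
theorem ld_mul (x y : V) : ld x (mul x y) = y := by
  refine Prod.ext ?_ ?_ <;> simp only [mul, ld, ld_mulW]; ring
theorem mul_rd (z y : V) : mul (rd z y) y = z := by
  refine Prod.ext ?_ ?_ <;> simp only [mul, rd, mul_rdW]; ring
theorem rd_mul (x y : V) : rd (mul x y) y = x := by
  refine Prod.ext ?_ ?_ <;> simp only [mul, rd, rd_mulW]; ring

def n1 (a b p r t : W) : W :=
  ⟨b.a + p.a,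
   b.b + p.b,
   b.b*p.b + b.c + p.c,
   b.b*p.a + b.d + p.d,
   b.a*p.a + b.e + p.e,
   b.a*b.b*p.b + b.b*p.a*p.b + b.f + p.f,
   b.a*b.b*p.a + b.a*p.a*p.b + b.g + p.g⟩

theorem e1 (a b p r t : W) : mulW p b = n1 a b p r t := by
  ext <;> simp only [mulW, n1] <;> ring

def n2 (a b p r t : W) : W :=
  ⟨-a.a + b.a + p.a,
   -a.b + b.b + p.b,
   a.b*a.b - a.b*b.b - a.b*p.b - a.c + b.b*p.b + b.c + p.c,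
   a.a*a.b - a.a*b.b - a.a*p.b - a.d + b.b*p.a + b.d + p.d,
   a.a*a.a - a.a*b.a - a.a*p.a - a.e + b.a*p.a + b.e + p.e,
   a.b*a.b*b.a + a.b*a.b*p.a - a.b*b.a*b.b - a.b*b.a*p.b - a.b*b.b*p.a - a.b*p.a*p.b - a.f + b.a*b.b*p.b + b.b*p.a*p.b + b.f + p.f,
   a.a*a.a*b.b + a.a*a.a*p.b - a.a*b.a*b.b - a.a*b.a*p.b - a.a*b.b*p.a - a.a*p.a*p.b - a.g + b.a*b.b*p.a + b.a*p.a*p.b + b.g + p.g⟩

theorem e2 (a b p r t : W) : ldW a (n1 a b p r t) = n2 a b p r t := by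
  ext <;> simp only [ldW, n1, n2] <;> ring

def n3 (a b p r t : W) : W :=
  ⟨b.a + t.a,
   b.b + t.b,
   b.b*t.b + b.c + t.c,
   b.b*t.a + b.d + t.d,
   b.a*t.a + b.e + t.e,
   b.a*b.b*t.b + b.b*t.a*t.b + b.f + t.f,
   b.a*b.b*t.a + b.a*t.a*t.b + b.g + t.g⟩

theorem e3 (a b p r t : W) : mulW t b = n3 a b p r t := by
  ext <;> simp only [mulW, n3] <;> ring

def n4 (a b p r t : W) : W :=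
  ⟨-a.a + b.a + t.a,
   -a.b + b.b + t.b,
   a.b*a.b - a.b*b.b - a.b*t.b - a.c + b.b*t.b + b.c + t.c,
   a.a*a.b - a.a*b.b - a.a*t.b - a.d + b.b*t.a + b.d + t.d,
   a.a*a.a - a.a*b.a - a.a*t.a - a.e + b.a*t.a + b.e + t.e,
   a.b*a.b*b.a + a.b*a.b*t.a - a.b*b.a*b.b - a.b*b.a*t.b - a.b*b.b*t.a - a.b*t.a*t.b - a.f + b.a*b.b*t.b + b.b*t.a*t.b + b.f + t.f,
   a.a*a.a*b.b + a.a*a.a*t.b - a.a*b.a*b.b - a.a*b.a*t.b - a.a*b.b*t.a - a.a*t.a*t.b - a.g + b.a*b.b*t.a + b.a*t.a*t.b + b.g + t.g⟩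

theorem e4 (a b p r t : W) : ldW a (n3 a b p r t) = n4 a b p r t := by
  ext <;> simp only [ldW, n3, n4] <;> ring

def n5 (a b p r t : W) : W :=
  ⟨-a.a + b.a + r.a + t.a,
   -a.b + b.b + r.b + t.b,
   a.b*a.b - a.b*b.b - a.b*r.b - a.b*t.b - a.c + b.b*r.b + b.b*t.b + b.c + r.b*t.b + r.c + t.c,
   a.a*a.b - a.a*b.b - a.a*t.b - a.b*r.a - a.d + b.b*r.a + b.b*t.a + b.d + r.a*t.b + r.d + t.d,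
   a.a*a.a - a.a*b.a - a.a*r.a - a.a*t.a - a.e + b.a*r.a + b.a*t.a + b.e + r.a*t.a + r.e + t.e,
   a.a*a.b*r.b - a.a*b.b*r.b - a.a*r.b*t.b + a.b*a.b*b.a + a.b*a.b*t.a - a.b*b.a*b.b - a.b*b.a*r.b - a.b*b.a*t.b - a.b*b.b*t.a - a.b*r.a*r.b - a.b*r.b*t.a - a.b*t.a*t.b - a.f + b.a*b.b*r.b + b.a*b.b*t.b + b.a*r.b*t.b + b.b*r.a*r.b + b.b*r.b*t.a + b.b*t.a*t.b + b.f + r.a*r.b*t.b + r.b*t.a*t.b + r.f + t.f,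
   a.a*a.a*b.b + a.a*a.a*t.b + a.a*a.b*r.a - a.a*b.a*b.b - a.a*b.a*t.b - a.a*b.b*r.a - a.a*b.b*t.a - a.a*r.a*r.b - a.a*r.a*t.b - a.a*t.a*t.b - a.b*b.a*r.a - a.b*r.a*t.a - a.g + b.a*b.b*r.a + b.a*b.b*t.a + b.a*r.a*r.b + b.a*r.a*t.b + b.a*t.a*t.b + b.b*r.a*t.a + b.g + r.a*r.b*t.a + r.a*t.a*t.b + r.g + t.g⟩

theorem e5 (a b p r t : W) : mulW r (n4 a b p r t) = n5 a b p r t := by
  ext <;> simp only [mulW, n4, n5] <;> ring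

def n6 (a b p r t : W) : W :=
  ⟨-a.a + r.a + t.a,
   -a.b + r.b + t.b,
   a.b*a.b - a.b*r.b - a.b*t.b - a.c + r.b*t.b + r.c + t.c,
   a.a*a.b - a.a*t.b - a.b*r.a - a.d + r.a*t.b + r.d + t.d,
   a.a*a.a - a.a*r.a - a.a*t.a - a.e + r.a*t.a + r.e + t.e,
   -a.a*a.b*b.b + a.a*a.b*r.b + a.a*b.b*t.b - a.a*r.b*t.b + a.b*a.b*b.a + a.b*a.b*t.a - a.b*b.a*r.b - a.b*b.a*t.b + a.b*b.b*r.a - a.b*r.a*r.b - a.b*r.b*t.a - a.b*t.a*t.b - a.f + b.a*r.b*t.b - b.b*r.a*t.b + r.a*r.b*t.b + r.b*t.a*t.b + r.f + t.f,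
   a.a*a.a*b.b + a.a*a.a*t.b - a.a*a.b*b.a + a.a*a.b*r.a + a.a*b.a*r.b - a.a*b.b*r.a - a.a*b.b*t.a - a.a*r.a*r.b - a.a*r.a*t.b - a.a*t.a*t.b + a.b*b.a*t.a - a.b*r.a*t.a - a.g - b.a*r.b*t.a + b.b*r.a*t.a + r.a*r.b*t.a + r.a*t.a*t.b + r.g + t.g⟩

theorem e6 (a b p r t : W) : rdW (n5 a b p r t) b = n6 a b p r t := by
  ext <;> simp only [rdW, n5, n6] <;> ring

def n7 (a b p r t : W) : W :=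
  ⟨-2*a.a + b.a + p.a + r.a + t.a,
   -2*a.b + b.b + p.b + r.b + t.b,
   3*a.b*a.b - 2*a.b*b.b - 2*a.b*p.b - 2*a.b*r.b - 2*a.b*t.b - 2*a.c + b.b*p.b + b.b*r.b + b.b*t.b + b.c + p.b*r.b + p.b*t.b + p.c + r.b*t.b + r.c + t.c,
   3*a.a*a.b - 2*a.a*b.b - 2*a.a*p.b - a.a*t.b - 2*a.b*r.a - a.b*t.a - 2*a.d + b.b*p.a + b.b*r.a + b.b*t.a + b.d + p.b*r.a + p.b*t.a + p.d + r.a*t.b + r.d + t.d,
   3*a.a*a.a - 2*a.a*b.a - 2*a.a*p.a - 2*a.a*r.a - 2*a.a*t.a - 2*a.e + b.a*p.a + b.a*r.a + b.a*t.a + b.e + p.a*r.a + p.a*t.a + p.e + r.a*t.a + r.e + t.e,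
   -2*a.a*a.b*a.b + a.a*a.b*b.b + 2*a.a*a.b*p.b + 3*a.a*a.b*r.b + 2*a.a*a.b*t.b - 2*a.a*b.b*r.b - a.a*b.b*t.b - 2*a.a*p.b*r.b - 2*a.a*p.b*t.b - a.a*r.b*t.b + 3*a.b*a.b*b.a + 2*a.b*a.b*p.a + a.b*a.b*r.a + 2*a.b*a.b*t.a - 2*a.b*b.a*b.b - 2*a.b*b.a*p.b - 2*a.b*b.a*r.b - 2*a.b*b.a*t.b - 2*a.b*b.b*p.a - a.b*b.b*t.a - 2*a.b*p.a*p.b - a.b*p.a*r.b - a.b*p.a*t.b - a.b*p.b*r.a - a.b*p.b*t.a - 2*a.b*r.a*r.b - a.b*r.a*t.b - 2*a.b*r.b*t.a - 2*a.b*t.a*t.b - 2*a.f + b.a*b.b*p.b + b.a*b.b*r.b + b.a*b.b*t.b + b.a*p.b*r.b + b.a*p.b*t.b + b.a*r.b*t.b + b.b*p.a*p.b + b.b*p.a*r.b + b.b*p.a*t.b + b.b*r.a*r.b + b.b*r.b*t.a + b.b*t.a*t.b + b.f + p.a*p.b*r.b + p.a*p.b*t.b + p.b*r.a*r.b + p.b*r.a*t.b + p.b*r.b*t.a + p.b*t.a*t.b + p.f + r.a*r.b*t.b + r.b*t.a*t.b + r.f + t.f,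
   -2*a.a*a.a*a.b + 3*a.a*a.a*b.b + 2*a.a*a.a*p.b + a.a*a.a*r.b + 2*a.a*a.a*t.b + a.a*a.b*b.a + 2*a.a*a.b*p.a + 3*a.a*a.b*r.a + 2*a.a*a.b*t.a - 2*a.a*b.a*b.b - 2*a.a*b.a*p.b - a.a*b.a*t.b - 2*a.a*b.b*p.a - 2*a.a*b.b*r.a - 2*a.a*b.b*t.a - 2*a.a*p.a*p.b - a.a*p.a*r.b - a.a*p.a*t.b - a.a*p.b*r.a - a.a*p.b*t.a - 2*a.a*r.a*r.b - 2*a.a*r.a*t.b - a.a*r.b*t.a - 2*a.a*t.a*t.b - 2*a.b*b.a*r.a - a.b*b.a*t.a - 2*a.b*p.a*r.a - 2*a.b*p.a*t.a - a.b*r.a*t.a - 2*a.g + b.a*b.b*p.a + b.a*b.b*r.a + b.a*b.b*t.a + b.a*p.a*p.b + b.a*p.b*r.a + b.a*p.b*t.a + b.a*r.a*r.b + b.a*r.a*t.b + b.a*t.a*t.b + b.b*p.a*r.a + b.b*p.a*t.a + b.b*r.a*t.a + b.g + p.a*p.b*r.a + p.a*p.b*t.a + p.a*r.a*r.b + p.a*r.a*t.b + p.a*r.b*t.a + p.a*t.a*t.b + p.g + r.a*r.b*t.a + r.a*t.a*t.b + r.g + t.g⟩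

theorem e7 (a b p r t : W) : mulW (n6 a b p r t) (n2 a b p r t) = n7 a b p r t := by
  ext <;> simp only [mulW, n6, n2, n7] <;> ring

def n8 (a b p r t : W) : W :=
  ⟨-a.a + b.a + p.a + r.a,
   -a.b + b.b + p.b + r.b,
   a.b*a.b - a.b*b.b - a.b*p.b - a.b*r.b - a.c + b.b*p.b + b.b*r.b + b.c + p.b*r.b + p.c + r.c,
   a.a*a.b - a.a*b.b - a.a*p.b - a.b*r.a - a.d + b.b*p.a + b.b*r.a + b.d + p.b*r.a + p.d + r.d,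
   a.a*a.a - a.a*b.a - a.a*p.a - a.a*r.a - a.e + b.a*p.a + b.a*r.a + b.e + p.a*r.a + p.e + r.e,
   a.a*a.b*r.b - a.a*b.b*r.b - a.a*p.b*r.b + a.b*a.b*b.a + a.b*a.b*p.a - a.b*b.a*b.b - a.b*b.a*p.b - a.b*b.a*r.b - a.b*b.b*p.a - a.b*p.a*p.b - a.b*p.a*r.b - a.b*r.a*r.b - a.f + b.a*b.b*p.b + b.a*b.b*r.b + b.a*p.b*r.b + b.b*p.a*p.b + b.b*p.a*r.b + b.b*r.a*r.b + b.f + p.a*p.b*r.b + p.b*r.a*r.b + p.f + r.f,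
   a.a*a.a*b.b + a.a*a.a*p.b + a.a*a.b*r.a - a.a*b.a*b.b - a.a*b.a*p.b - a.a*b.b*p.a - a.a*b.b*r.a - a.a*p.a*p.b - a.a*p.b*r.a - a.a*r.a*r.b - a.b*b.a*r.a - a.b*p.a*r.a - a.g + b.a*b.b*p.a + b.a*b.b*r.a + b.a*p.a*p.b + b.a*p.b*r.a + b.a*r.a*r.b + b.b*p.a*r.a + b.g + p.a*p.b*r.a + p.a*r.a*r.b + p.g + r.g⟩

theorem e8 (a b p r t : W) : mulW r (n2 a b p r t) = n8 a b p r t := by
  ext <;> simp only [mulW, n2, n8] <;> ring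

def n9 (a b p r t : W) : W :=
  ⟨-a.a + b.a + r.a,
   -a.b + b.b + r.b,
   a.b*a.b - a.b*b.b - a.b*r.b - a.c + b.b*r.b + b.c + r.c,
   a.a*a.b - a.a*b.b - a.a*p.b + a.b*p.a - a.b*r.a - a.d + b.b*r.a + b.d - p.a*r.b + p.b*r.a + r.d,
   a.a*a.a - a.a*b.a - a.a*r.a - a.e + b.a*r.a + b.e + r.e,
   -a.a*a.b*p.b + a.a*a.b*r.b + a.a*b.b*p.b - a.a*b.b*r.b + a.b*a.b*b.a + a.b*a.b*p.a - a.b*b.a*b.b - a.b*b.a*r.b - a.b*b.b*p.a - a.b*p.a*r.b + a.b*p.b*r.a - a.b*r.a*r.b - a.f + b.a*b.b*r.b + b.b*p.a*r.b - b.b*p.b*r.a + b.b*r.a*r.b + b.f + r.f,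
   a.a*a.a*b.b + a.a*a.a*p.b - a.a*a.b*p.a + a.a*a.b*r.a - a.a*b.a*b.b - a.a*b.a*p.b - a.a*b.b*r.a + a.a*p.a*r.b - a.a*p.b*r.a - a.a*r.a*r.b + a.b*b.a*p.a - a.b*b.a*r.a - a.g + b.a*b.b*r.a - b.a*p.a*r.b + b.a*p.b*r.a + b.a*r.a*r.b + b.g + r.g⟩

theorem e9 (a b p r t : W) : ldW p (n8 a b p r t) = n9 a b p r t := by
  ext <;> simp only [ldW, n8, n9] <;> ring

def n10 (a b p r t : W) : W :=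
  ⟨b.a + r.a,
   b.b + r.b,
   b.b*r.b + b.c + r.c,
   -a.a*p.b + a.a*r.b + a.b*p.a - a.b*r.a + b.b*r.a + b.d - p.a*r.b + p.b*r.a + r.d,
   b.a*r.a + b.e + r.e,
   -a.a*a.b*p.b + a.a*a.b*r.b + a.a*b.b*p.b - a.a*b.b*r.b + a.b*a.b*p.a - a.b*a.b*r.a - a.b*b.b*p.a + a.b*b.b*r.a - a.b*p.a*r.b + a.b*p.b*r.a + b.a*b.b*r.b + b.b*p.a*r.b - b.b*p.b*r.a + b.b*r.a*r.b + b.f + r.f,
   a.a*a.a*p.b - a.a*a.a*r.b - a.a*a.b*p.a + a.a*a.b*r.a - a.a*b.a*p.b + a.a*b.a*r.b + a.a*p.a*r.b - a.a*p.b*r.a + a.b*b.a*p.a - a.b*b.a*r.a + b.a*b.b*r.a - b.a*p.a*r.b + b.a*p.b*r.a + b.a*r.a*r.b + b.g + r.g⟩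

theorem e10 (a b p r t : W) : mulW a (n9 a b p r t) = n10 a b p r t := by
  ext <;> simp only [mulW, n9, n10] <;> ring

def n11 (a b p r t : W) : W :=
  ⟨r.a,
   r.b,
   r.c,
   -a.a*p.b + a.a*r.b + a.b*p.a - a.b*r.a - p.a*r.b + p.b*r.a + r.d,
   r.e,
   -a.a*a.b*p.b + a.a*a.b*r.b + a.a*b.b*p.b - a.a*b.b*r.b + a.b*a.b*p.a - a.b*a.b*r.a - a.b*b.b*p.a + a.b*b.b*r.a - a.b*p.a*r.b + a.b*p.b*r.a + b.b*p.a*r.b - b.b*p.b*r.a + r.f,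
   a.a*a.a*p.b - a.a*a.a*r.b - a.a*a.b*p.a + a.a*a.b*r.a - a.a*b.a*p.b + a.a*b.a*r.b + a.a*p.a*r.b - a.a*p.b*r.a + a.b*b.a*p.a - a.b*b.a*r.a - b.a*p.a*r.b + b.a*p.b*r.a + r.g⟩

theorem e11 (a b p r t : W) : rdW (n10 a b p r t) b = n11 a b p r t := by
  ext <;> simp only [rdW, n10, n11] <;> ring

def n12 (a b p r t : W) : W :=
  ⟨-a.a + b.a + p.a + t.a,
   -a.b + b.b + p.b + t.b,
   a.b*a.b - a.b*b.b - a.b*p.b - a.b*t.b - a.c + b.b*p.b + b.b*t.b + b.c + p.b*t.b + p.c + t.c,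
   a.a*a.b - a.a*b.b - a.a*p.b - a.b*t.a - a.d + b.b*p.a + b.b*t.a + b.d + p.b*t.a + p.d + t.d,
   a.a*a.a - a.a*b.a - a.a*p.a - a.a*t.a - a.e + b.a*p.a + b.a*t.a + b.e + p.a*t.a + p.e + t.e,
   a.a*a.b*t.b - a.a*b.b*t.b - a.a*p.b*t.b + a.b*a.b*b.a + a.b*a.b*p.a - a.b*b.a*b.b - a.b*b.a*p.b - a.b*b.a*t.b - a.b*b.b*p.a - a.b*p.a*p.b - a.b*p.a*t.b - a.b*t.a*t.b - a.f + b.a*b.b*p.b + b.a*b.b*t.b + b.a*p.b*t.b + b.b*p.a*p.b + b.b*p.a*t.b + b.b*t.a*t.b + b.f + p.a*p.b*t.b + p.b*t.a*t.b + p.f + t.f,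
   a.a*a.a*b.b + a.a*a.a*p.b + a.a*a.b*t.a - a.a*b.a*b.b - a.a*b.a*p.b - a.a*b.b*p.a - a.a*b.b*t.a - a.a*p.a*p.b - a.a*p.b*t.a - a.a*t.a*t.b - a.b*b.a*t.a - a.b*p.a*t.a - a.g + b.a*b.b*p.a + b.a*b.b*t.a + b.a*p.a*p.b + b.a*p.b*t.a + b.a*t.a*t.b + b.b*p.a*t.a + b.g + p.a*p.b*t.a + p.a*t.a*t.b + p.g + t.g⟩

theorem e12 (a b p r t : W) : mulW t (n2 a b p r t) = n12 a b p r t := by
  ext <;> simp only [mulW, n2, n12] <;> ring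

def n13 (a b p r t : W) : W :=
  ⟨-a.a + b.a + t.a,
   -a.b + b.b + t.b,
   a.b*a.b - a.b*b.b - a.b*t.b - a.c + b.b*t.b + b.c + t.c,
   a.a*a.b - a.a*b.b - a.a*p.b + a.b*p.a - a.b*t.a - a.d + b.b*t.a + b.d - p.a*t.b + p.b*t.a + t.d,
   a.a*a.a - a.a*b.a - a.a*t.a - a.e + b.a*t.a + b.e + t.e,
   -a.a*a.b*p.b + a.a*a.b*t.b + a.a*b.b*p.b - a.a*b.b*t.b + a.b*a.b*b.a + a.b*a.b*p.a - a.b*b.a*b.b - a.b*b.a*t.b - a.b*b.b*p.a - a.b*p.a*t.b + a.b*p.b*t.a - a.b*t.a*t.b - a.f + b.a*b.b*t.b + b.b*p.a*t.b - b.b*p.b*t.a + b.b*t.a*t.b + b.f + t.f,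
   a.a*a.a*b.b + a.a*a.a*p.b - a.a*a.b*p.a + a.a*a.b*t.a - a.a*b.a*b.b - a.a*b.a*p.b - a.a*b.b*t.a + a.a*p.a*t.b - a.a*p.b*t.a - a.a*t.a*t.b + a.b*b.a*p.a - a.b*b.a*t.a - a.g + b.a*b.b*t.a - b.a*p.a*t.b + b.a*p.b*t.a + b.a*t.a*t.b + b.g + t.g⟩

theorem e13 (a b p r t : W) : ldW p (n12 a b p r t) = n13 a b p r t := by
  ext <;> simp only [ldW, n12, n13] <;> ring

def n14 (a b p r t : W) : W :=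
  ⟨-a.a + b.a + r.a + t.a,
   -a.b + b.b + r.b + t.b,
   a.b*a.b - a.b*b.b - a.b*r.b - a.b*t.b - a.c + b.b*r.b + b.b*t.b + b.c + r.b*t.b + r.c + t.c,
   a.a*a.b - a.a*b.b - 2*a.a*p.b + a.a*r.b + 2*a.b*p.a - 2*a.b*r.a - a.b*t.a - a.d + b.b*r.a + b.b*t.a + b.d - p.a*r.b - p.a*t.b + p.b*r.a + p.b*t.a + r.a*t.b + r.d + t.d,
   a.a*a.a - a.a*b.a - a.a*r.a - a.a*t.a - a.e + b.a*r.a + b.a*t.a + b.e + r.a*t.a + r.e + t.e,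
   -2*a.a*a.b*p.b + 2*a.a*a.b*r.b + a.a*a.b*t.b + 2*a.a*b.b*p.b - 2*a.a*b.b*r.b - a.a*b.b*t.b - a.a*r.b*t.b + a.b*a.b*b.a + 2*a.b*a.b*p.a - a.b*a.b*r.a - a.b*b.a*b.b - a.b*b.a*r.b - a.b*b.a*t.b - 2*a.b*b.b*p.a + a.b*b.b*r.a - a.b*p.a*r.b - a.b*p.a*t.b + a.b*p.b*r.a + a.b*p.b*t.a - a.b*r.a*r.b - a.b*r.b*t.a - a.b*t.a*t.b - a.f + b.a*b.b*r.b + b.a*b.b*t.b + b.a*r.b*t.b + b.b*p.a*r.b + b.b*p.a*t.b - b.b*p.b*r.a - b.b*p.b*t.a + b.b*r.a*r.b + b.b*r.b*t.a + b.b*t.a*t.b + b.f + r.a*r.b*t.b + r.b*t.a*t.b + r.f + t.f,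
   a.a*a.a*b.b + 2*a.a*a.a*p.b - a.a*a.a*r.b - 2*a.a*a.b*p.a + 2*a.a*a.b*r.a + a.a*a.b*t.a - a.a*b.a*b.b - 2*a.a*b.a*p.b + a.a*b.a*r.b - a.a*b.b*r.a - a.a*b.b*t.a + a.a*p.a*r.b + a.a*p.a*t.b - a.a*p.b*r.a - a.a*p.b*t.a - a.a*r.a*r.b - a.a*r.a*t.b - a.a*t.a*t.b + 2*a.b*b.a*p.a - 2*a.b*b.a*r.a - a.b*b.a*t.a - a.b*r.a*t.a - a.g + b.a*b.b*r.a + b.a*b.b*t.a - b.a*p.a*r.b - b.a*p.a*t.b + b.a*p.b*r.a + b.a*p.b*t.a + b.a*r.a*r.b + b.a*r.a*t.b + b.a*t.a*t.b + b.b*r.a*t.a + b.g + r.a*r.b*t.a + r.a*t.a*t.b + r.g + t.g⟩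

theorem e14 (a b p r t : W) : mulW (n11 a b p r t) (n13 a b p r t) = n14 a b p r t := by
  ext <;> simp only [mulW, n11, n13, n14] <;> ring

def n15 (a b p r t : W) : W :=
  ⟨-2*a.a + b.a + r.a + t.a,
   -2*a.b + b.b + r.b + t.b,
   3*a.b*a.b - 2*a.b*b.b - 2*a.b*r.b - 2*a.b*t.b - 2*a.c + b.b*r.b + b.b*t.b + b.c + r.b*t.b + r.c + t.c,
   3*a.a*a.b - 2*a.a*b.b - 2*a.a*p.b - a.a*t.b + 2*a.b*p.a - 2*a.b*r.a - a.b*t.a - 2*a.d + b.b*r.a + b.b*t.a + b.d - p.a*r.b - p.a*t.b + p.b*r.a + p.b*t.a + r.a*t.b + r.d + t.d,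
   3*a.a*a.a - 2*a.a*b.a - 2*a.a*r.a - 2*a.a*t.a - 2*a.e + b.a*r.a + b.a*t.a + b.e + r.a*t.a + r.e + t.e,
   -2*a.a*a.b*a.b + a.a*a.b*b.b - 2*a.a*a.b*p.b + 3*a.a*a.b*r.b + 2*a.a*a.b*t.b + 2*a.a*b.b*p.b - 2*a.a*b.b*r.b - a.a*b.b*t.b - a.a*r.b*t.b + 3*a.b*a.b*b.a + 2*a.b*a.b*p.a + a.b*a.b*r.a + 2*a.b*a.b*t.a - 2*a.b*b.a*b.b - 2*a.b*b.a*r.b - 2*a.b*b.a*t.b - 2*a.b*b.b*p.a - a.b*b.b*t.a - a.b*p.a*r.b - a.b*p.a*t.b + a.b*p.b*r.a + a.b*p.b*t.a - 2*a.b*r.a*r.b - a.b*r.a*t.b - 2*a.b*r.b*t.a - 2*a.b*t.a*t.b - 2*a.f + b.a*b.b*r.b + b.a*b.b*t.b + b.a*r.b*t.b + b.b*p.a*r.b + b.b*p.a*t.b - b.b*p.b*r.a - b.b*p.b*t.a + b.b*r.a*r.b + b.b*r.b*t.a + b.b*t.a*t.b + b.f + r.a*r.b*t.b + r.b*t.a*t.b + r.f + t.f,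
   -2*a.a*a.a*a.b + 3*a.a*a.a*b.b + 2*a.a*a.a*p.b + a.a*a.a*r.b + 2*a.a*a.a*t.b + a.a*a.b*b.a - 2*a.a*a.b*p.a + 3*a.a*a.b*r.a + 2*a.a*a.b*t.a - 2*a.a*b.a*b.b - 2*a.a*b.a*p.b - a.a*b.a*t.b - 2*a.a*b.b*r.a - 2*a.a*b.b*t.a + a.a*p.a*r.b + a.a*p.a*t.b - a.a*p.b*r.a - a.a*p.b*t.a - 2*a.a*r.a*r.b - 2*a.a*r.a*t.b - a.a*r.b*t.a - 2*a.a*t.a*t.b + 2*a.b*b.a*p.a - 2*a.b*b.a*r.a - a.b*b.a*t.a - a.b*r.a*t.a - 2*a.g + b.a*b.b*r.a + b.a*b.b*t.a - b.a*p.a*r.b - b.a*p.a*t.b + b.a*p.b*r.a + b.a*p.b*t.a + b.a*r.a*r.b + b.a*r.a*t.b + b.a*t.a*t.b + b.b*r.a*t.a + b.g + r.a*r.b*t.a + r.a*t.a*t.b + r.g + t.g⟩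

theorem e15 (a b p r t : W) : ldW a (n14 a b p r t) = n15 a b p r t := by
  ext <;> simp only [ldW, n14, n15] <;> ring

def n16 (a b p r t : W) : W :=
  ⟨-2*a.a + b.a + p.a + r.a + t.a,
   -2*a.b + b.b + p.b + r.b + t.b,
   3*a.b*a.b - 2*a.b*b.b - 2*a.b*p.b - 2*a.b*r.b - 2*a.b*t.b - 2*a.c + b.b*p.b + b.b*r.b + b.b*t.b + b.c + p.b*r.b + p.b*t.b + p.c + r.b*t.b + r.c + t.c,
   3*a.a*a.b - 2*a.a*b.b - 2*a.a*p.b - a.a*t.b - 2*a.b*r.a - a.b*t.a - 2*a.d + b.b*p.a + b.b*r.a + b.b*t.a + b.d + p.b*r.a + p.b*t.a + p.d + r.a*t.b + r.d + t.d,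
   3*a.a*a.a - 2*a.a*b.a - 2*a.a*p.a - 2*a.a*r.a - 2*a.a*t.a - 2*a.e + b.a*p.a + b.a*r.a + b.a*t.a + b.e + p.a*r.a + p.a*t.a + p.e + r.a*t.a + r.e + t.e,
   -2*a.a*a.b*a.b + a.a*a.b*b.b + 2*a.a*a.b*p.b + 3*a.a*a.b*r.b + 2*a.a*a.b*t.b - 2*a.a*b.b*r.b - a.a*b.b*t.b - 2*a.a*p.b*r.b - 2*a.a*p.b*t.b - a.a*r.b*t.b + 3*a.b*a.b*b.a + 2*a.b*a.b*p.a + a.b*a.b*r.a + 2*a.b*a.b*t.a - 2*a.b*b.a*b.b - 2*a.b*b.a*p.b - 2*a.b*b.a*r.b - 2*a.b*b.a*t.b - 2*a.b*b.b*p.a - a.b*b.b*t.a - 2*a.b*p.a*p.b - a.b*p.a*r.b - a.b*p.a*t.b - a.b*p.b*r.a - a.b*p.b*t.a - 2*a.b*r.a*r.b - a.b*r.a*t.b - 2*a.b*r.b*t.a - 2*a.b*t.a*t.b - 2*a.f + b.a*b.b*p.b + b.a*b.b*r.b + b.a*b.b*t.b + b.a*p.b*r.b + b.a*p.b*t.b + b.a*r.b*t.b + b.b*p.a*p.b + b.b*p.a*r.b + b.b*p.a*t.b + b.b*r.a*r.b + b.b*r.b*t.a + b.b*t.a*t.b +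 b.f + p.a*p.b*r.b + p.a*p.b*t.b + p.b*r.a*r.b + p.b*r.a*t.b + p.b*r.b*t.a + p.b*t.a*t.b + p.f + r.a*r.b*t.b + r.b*t.a*t.b + r.f + t.f,
   -2*a.a*a.a*a.b + 3*a.a*a.a*b.b + 2*a.a*a.a*p.b + a.a*a.a*r.b + 2*a.a*a.a*t.b + a.a*a.b*b.a + 2*a.a*a.b*p.a + 3*a.a*a.b*r.a + 2*a.a*a.b*t.a - 2*a.a*b.a*b.b - 2*a.a*b.a*p.b - a.a*b.a*t.b - 2*a.a*b.b*p.a - 2*a.a*b.b*r.a - 2*a.a*b.b*t.a - 2*a.a*p.a*p.b - a.a*p.a*r.b - a.a*p.a*t.b - a.a*p.b*r.a - a.a*p.b*t.a - 2*a.a*r.a*r.b - 2*a.a*r.a*t.b - a.a*r.b*t.a - 2*a.a*t.a*t.b - 2*a.b*b.a*r.a - a.b*b.a*t.a - 2*a.b*p.a*r.a - 2*a.b*p.a*t.a - a.b*r.a*t.a - 2*a.g + b.a*b.b*p.a + b.a*b.b*r.a + b.a*b.b*t.a + b.a*p.a*p.b + b.a*p.b*r.a + b.a*p.b*t.a + b.a*r.a*r.b + b.a*r.a*t.b + b.a*t.a*t.b + b.b*p.a*r.a + b.b*p.a*t.a + b.b*r.a*t.a + b.g + p.a*p.b*r.a +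 p.a*p.b*t.a + p.a*r.a*r.b + p.a*r.a*t.b + p.a*r.b*t.a + p.a*t.a*t.b + p.g + r.a*r.b*t.a + r.a*t.a*t.b + r.g + t.g⟩

theorem e16 (a b p r t : W) : mulW p (n15 a b p r t) = n16 a b p r t := by
  ext <;> simp only [mulW, n15, n16] <;> ring

theorem eW (a b p r t : W) : n7 a b p r t = n16 a b p r t := by
  ext <;> simp only [n7, n16]

def cof (a b p r t : W) : ZMod 2 :=
  -6*a.a*a.a*a.b*a.b + 4*a.a*a.a*a.b*b.b + 6*a.a*a.a*a.b*p.b + a.a*a.a*a.b*r.b + a.a*a.a*a.b*t.b - 2*a.a*a.a*b.b*p.b - a.a*a.a*b.b*r.b - a.a*a.a*b.b*t.b - a.a*a.a*p.b*p.b - 2*a.a*a.a*p.b*r.b - 2*a.a*a.a*p.b*t.b + a.a*a.a*r.b*r.b + a.a*a.a*r.b*t.b + a.a*a.a*t.b*t.b + 2*a.a*a.b*a.b*b.a + 3*a.a*a.b*a.b*r.a + 3*a.a*a.b*a.b*t.a - 2*a.a*a.b*b.a*p.b - a.a*a.b*b.a*r.b - a.a*a.b*b.a*t.b - 2*a.a*a.b*b.b*p.a - 3*a.a*a.b*b.b*r.a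 - 3*a.a*a.b*b.b*t.a + 2*a.a*a.b*p.a*r.b + 2*a.a*a.b*p.a*t.b - 4*a.a*a.b*p.b*r.a - 4*a.a*a.b*p.b*t.a + a.a*a.b*r.a*r.b - a.a*a.b*r.a*t.b - a.a*a.b*r.b*t.a + a.a*a.b*t.a*t.b + a.a*b.a*p.b*r.b + a.a*b.a*p.b*t.b + a.a*b.b*p.a*r.b + a.a*b.b*p.a*t.b + 2*a.a*b.b*p.b*r.a + 2*a.a*b.b*p.b*t.a + a.a*b.b*r.a*t.b + a.a*b.b*r.b*t.a - a.a*p.a*r.b*r.b - 2*a.a*p.a*r.b*t.b - a.a*p.a*t.b*t.b + a.a*p.b*p.b*r.a + a.a*p.b*p.b*t.a + 2*a.a*p.b*r.a*t.b + 2*a.a*p.b*r.b*t.a - a.a*r.a*r.b*t.b - a.a*r.a*t.b*t.b - a.a*r.b*r.b*t.a - a.a*r.b*t.a*t.b - a.b*a.b*b.a*r.a - a.b*a.b*b.a*t.a + a.b*a.b*p.a*p.a - a.b*a.b*r.a*t.a + a.b*b.a*p.b*r.a + a.b*b.a*p.b*t.a + a.b*b.a*r.a*t.b + a.b*b.a*r.b*t.a + a.b*b.b*p.a*r.a + a.b*b.b*p.a*t.a + 2*a.b*b.b*r.a*t.a - a.b*p.a*p.a*r.b - a.b*p.a*p.a*t.b - a.b*p.a*r.a*r.b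 - a.b*p.a*r.a*t.b - a.b*p.a*r.b*t.a - a.b*p.a*t.a*t.b + 2*a.b*p.b*r.a*t.a - b.a*p.b*r.a*t.b - b.a*p.b*r.b*t.a - b.b*p.a*r.a*t.b - b.b*p.a*r.b*t.a - 2*b.b*p.b*r.a*t.a + p.a*p.a*r.b*t.b + p.a*r.a*r.b*t.b + p.a*r.a*t.b*t.b + p.a*r.b*r.b*t.a + p.a*r.b*t.a*t.b - p.b*p.b*r.a*t.a


theorem key (a b p r t : V) :
    mul (rd (mul r (ld a (mul t b))) b) (ld a (mul p b)) =
      mul p (ld a (mul (rd (mul a (ld p (mul r (ld a (mul p b))))) b)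
        (ld p (mul t (ld a (mul p b)))))) := by
  obtain ⟨a, ha⟩ := a
  obtain ⟨b, hb⟩ := b
  obtain ⟨p, hp⟩ := p
  obtain ⟨r, hr⟩ := r
  obtain ⟨t, ht⟩ := t
  have h2 : (2 : ZMod 2) = 0 := rfl
  refine Prod.ext ?_ ?_
  · simp only [mul, ld, rd]
    rw [e1 a b p r t, e2, e3 a b p r t, e4, e5, e6, e7, e8, e9, e10, e11, e12, e13, e14, e15, e16, eW]
  · simp only [mul, ld, rd]
    rw [e1 a b p r t, e2, e3 a b p r t, e4, e5, e6, e8, e9, e10, e11, e12, e13, e14, e15]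
    have : cof a b p r t * 2 = 0 := by rw [h2, mul_zero]
    simp only [cof] at this
    simp only [F, n1, n2, n3, n4, n5, n6, n7, n8, n9, n10, n11, n12, n13, n14, n15, n16]
    linear_combination this

def z0 : V := (⟨0, 0, 0, 0, 0, 0, 0⟩, 0)
def x0 : V := (⟨0, 1, 0, 0, 0, 0, 0⟩, 0)
def y0 : V := (⟨1, 0, 0, 0, 0, 0, 0⟩, 0)

theorem bad : ld (mul x0 y0) z0 ≠ mul (ld y0 z0) (ld x0 z0) := by decide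

theorem loopV : IsLoop mul z0 := by
  refine ⟨fun x => ⟨?_, ?_⟩, fun a => ?_, fun a => ?_⟩
  · refine Prod.ext (W.ext ?_ ?_ ?_ ?_ ?_ ?_ ?_) ?_ <;> simp [mul, mulW, F, z0]
  · refine Prod.ext (W.ext ?_ ?_ ?_ ?_ ?_ ?_ ?_) ?_ <;> simp [mul, mulW, F, z0]
  · exact Function.bijective_iff_has_inverse.2 ⟨ld a, ld_mul a, mul_ld a⟩
  · exact Function.bijective_iff_has_inverse.2 ⟨fun z => rd z a, fun x => rd_mul x a, fun z => mul_rd z a⟩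

theorem result : ∃ (Q : Type) (mul : Q → Q → Q) (e : Q), Finite Q ∧ IsLoop mul e ∧
    (∀ (G : Type) (m : G → G → G) (u : G), IsLoop m u →
      (∃ α β γ : G ≃ Q, ∀ x y, γ (m x y) = mul (α x) (β y)) → PropT m) ∧
    ¬ AAIP mul e := by
  refine ⟨V, mul, z0, inferInstance, loopV, ?_, ?_⟩
  · rintro G m u ⟨h1, hL, hR⟩ ⟨α, β, γ, h⟩ x
    have hα : ∀ w, α w = rd (γ w) (β u) := fun w => by
      rw [← (h1 w).2, h, rd_mul, (h1 w).2]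
    have hβ : ∀ w, β w = ld (α u) (γ w) := fun w => by
      rw [← (h1 w).1, h, ld_mul, (h1 w).1]
    have hγ : ∀ w, γ w = mul (α w) (β u) := fun w => by rw [← h, (h1 w).2]
    have hγ' : ∀ w, γ w = mul (α u) (β w) := fun w => by rw [← h, (h1 w).1]
    have hφ : ∀ y, m x (((Equiv.ofBijective _ (hR x)).trans (Equiv.ofBijective _ (hL x)).symm) y) = m y x :=
      fun y => (Equiv.ofBijective _ (hL x)).apply_symm_apply _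
    refine ⟨_, hφ, fun y z => (hL x).1 ?_⟩
    rw [hφ]
    have hy := hφ y
    have hz := hφ z
    generalize ((Equiv.ofBijective _ (hR x)).trans (Equiv.ofBijective _ (hL x)).symm) y = y' at hy
    generalize ((Equiv.ofBijective _ (hR x)).trans (Equiv.ofBijective _ (hL x)).symm) z = z' at hz
    have by' : β y' = ld (α x) (mul (α y) (β x)) := by rw [← h, ← hy, h, ld_mul]
    have bz' : β z' = ld (α x) (mul (α z) (β x)) := by rw [← h, ← hz, h, ld_mul]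
    have bx : β x = ld (α u) (mul (α x) (β u)) := by rw [hβ x, hγ x]
    have bz : β z = ld (α u) (mul (α z) (β u)) := by rw [hβ z, hγ z]
    apply γ.injective
    rw [h, h, hα (m y z), hβ (m y' z'), h, h, hα y', hγ' y', by', bz', bz, bx]
    exact key _ _ _ _ _
  · rintro ⟨inv, h1, h2⟩
    have hi : ∀ x, inv x = ld x z0 := fun x => by rw [← (h1 x).1, ld_mul]
    apply bad
    rw [← hi, ← hi, ← hi, h2]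

end Pool.Agent.Results.MP_0d4ca0_al.UnivT
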